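import Mathlib
import Pool.Agent.H.MP_59b15d_al.h60e.Hb

set_option autoImplicit false

/-!
# The relations of the exchanges, the squares known up to central elements
-/

namespace Pool.MP_59b15d_al.H60P

open Module Pool.MP_59b15d_al.H95E Pool.MP_59b15d_al.H93E Pool.MP_59b15d_al.H60E

variable {Γ : Type*} [Group Γ]

/-- The relations of `Hb`, the last one up to elements of `Z`. -/
structure HbZ (g : ℕ) (A B C S : ℕ → Γ) (Z : Subgroup Γ) : Prop where
  SS : ∀ i j, i + 1 < j → Commute (S i) (S j)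
  br : ∀ i, i + 2 < g → S i * S (i + 1) * S i = S (i + 1) * S i * S (i + 1)
  R7 : ∀ i, i + 1 < g → S i * C i * (S i)⁻¹ =
    (io A B i * io A B (i + 1))⁻¹ * C i * (io A B i * io A B (i + 1))
  R6 : ∀ i, i + 1 < g → ∃ z ∈ Z, S i * S i =
    ((io A B i)⁻¹ * (io A B (i + 1))⁻¹ * C i * io A B (i + 1) * io A B i) *
    ((io A B i)⁻¹ * C i * io A B i) * ((io A B (i + 1))⁻¹ * C i * io A B (i + 1)) * C i *
    (A i)⁻¹ ^ 4 * (A (i + 1))⁻¹ ^ 4 * z

/-- The relations up to `Z` follow from those of an image. -/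
theorem HbZ.of_map {Γ' : Type*} [Group Γ'] {g : ℕ} {A B C S : ℕ → Γ} {Z : Subgroup Γ}
    (f : Γ →* Γ') (hf : ∀ x, f x = 1 → x ∈ Z)
    (SS : ∀ i j, i + 1 < j → Commute (S i) (S j))
    (br : ∀ i, i + 2 < g → S i * S (i + 1) * S i = S (i + 1) * S i * S (i + 1))
    (R7 : ∀ i, i + 1 < g → S i * C i * (S i)⁻¹ =
      (io A B i * io A B (i + 1))⁻¹ * C i * (io A B i * io A B (i + 1)))
    (H : Hb g (fun k => f (A k)) (fun k => f (B k)) (fun k => f (C k)) fun k => f (S k)) :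
    HbZ g A B C S Z where
  SS := SS
  br := br
  R7 := R7
  R6 := fun i hi => by
    have h1 := H.R6 i hi
    obtain ⟨w, hw⟩ : ∃ w, w =
      ((io A B i)⁻¹ * (io A B (i + 1))⁻¹ * C i * io A B (i + 1) * io A B i) *
      ((io A B i)⁻¹ * C i * io A B i) * ((io A B (i + 1))⁻¹ * C i * io A B (i + 1)) * C i *
      (A i)⁻¹ ^ 4 * (A (i + 1))⁻¹ ^ 4 := ⟨_, rfl⟩
    rw [← hw]
    refine ⟨w⁻¹ * (S i * S i), hf _ ?_, by group⟩
    have h2 : f w = f (S i) * f (S i) := by
      rw [h1, hw]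
      simp only [map_mul, map_inv, map_pow, io]
    rw [map_mul, map_inv, h2, map_mul, inv_mul_cancel]

/-- The exact relations. -/
theorem HbZ.of_hb {g : ℕ} {A B C S : ℕ → Γ} (Z : Subgroup Γ) (H : Hb g A B C S) :
    HbZ g A B C S Z where
  SS := H.SS
  br := H.br
  R7 := H.R7
  R6 := fun i hi => ⟨1, one_mem _, by rw [mul_one]; exact H.R6 i hi⟩

end Pool.MP_59b15d_al.H60P
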