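import Mathlib
import Pool.Agent.H.MP_59b15d_al.h60e.Span

set_option autoImplicit false

/-!
# The span of an exact family, with scalars

`W` belongs to the handles `J`, `W'` to the handles `J'`, which are different from the last handle
`n`. The translates of `W` are spanned by those which miss one of `|J| + 1` given handles.
-/

namespace Pool.MP_59b15d_al.H60P

open Module Pool.MP_59b15d_al.H95E Pool.MP_59b15d_al.H93E Pool.MP_59b15d_al.H60E

variable {F V Γ : Type*} [Field F] [AddCommGroup V] [Module F V] [Group Γ]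

theorem map_usmul (f : Module.End F V) (c : Fˣ) (v : V) : f (c • v) = c • f v := by
  rw [Units.smul_def, map_smul]
  rfl

/-- The elements which act on `W` by a scalar. -/
def fs (ρ : Γ →* Module.End F V) (W : Submodule F V) : Subgroup Γ where
  carrier := {x | ∃ c : Fˣ, ∀ v ∈ W, ρ x v = c • v}
  one_mem' := ⟨1, fun v _ => by rw [rho_one, one_smul]⟩
  mul_mem' := by
    rintro x y ⟨c, hc⟩ ⟨d, hd⟩
    refine ⟨c * d, fun v hv => ?_⟩
    rw [rho_mul, hd v hv, Units.smul_def, map_smul, hc v hv, mul_comm, mul_smul]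
    rfl
  inv_mem' := by
    rintro x ⟨c, hc⟩
    refine ⟨c⁻¹, fun v hv => ?_⟩
    have h1 : ρ x⁻¹ (ρ x v) = c • ρ x⁻¹ v := by
      rw [hc v hv, Units.smul_def, map_smul]
      rfl
    rw [rho_inv] at h1
    rw [eq_inv_smul_iff]
    exact h1.symm

theorem fx_le_fs (ρ : Γ →* Module.End F V) (W : Submodule F V) : fx ρ W ≤ fs ρ W :=
  fun _ hx => ⟨1, fun v hv => by rw [one_smul]; exact hx v hv⟩

theorem fs_conj {ρ : Γ →* Module.End F V} {W : Submodule F V} {s x : Γ} (hs : s ∈ sb ρ W)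
    (hx : x ∈ fs ρ W) : s * x * s⁻¹ ∈ fs ρ W := by
  obtain ⟨c, hc⟩ := hx
  refine ⟨c, fun v hv => ?_⟩
  rw [rho_mul, rho_mul, hc _ (sb_apply (inv_mem hs) hv), Units.smul_def, map_smul]
  congr 1
  have h1 := rho_inv ρ s⁻¹ v
  rwa [inv_inv] at h1

/-- The data. `D` is the group of the twists which are disjoint from all curves of the `A`'s, `D'`
its part supported in the handles before the last one `n`; `Br` is the group of the
permutations of the handles, with their permutations, `Br'` that of the handles before the last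
one; `X` is a set of pushes of a foot of the last handle, which belong to `D`, and `Xb l` the push
around `b l`. -/
structure SZ (ρ : Γ →* Module.End F V) (n : ℕ) (A B : ℕ → Γ) (D D' : Subgroup Γ)
    (Br Br' : Subgroup (Γ × Equiv.Perm ℕ)) (X : Set Γ) (Xb : ℕ → Γ) (J J' : Finset ℕ)
    (W W' : Submodule F V) : Prop where
  le_iff : ∀ p ∈ Br, ∀ k, p.2 k ≤ n ↔ k ≤ n
  conjA : ∀ p ∈ Br, ∀ k, k ≤ n → p.1 * A k = A (p.2 k) * p.1
  conjB : ∀ p ∈ Br, ∀ k, k ≤ n → p.1 * B k = B (p.2 k) * p.1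
  conjD : ∀ p ∈ Br, ∀ d ∈ D, p.1⁻¹ * d * p.1 ∈ D
  Br'_le : Br' ≤ Br
  last : ∀ p ∈ Br', p.2 n = n
  D'_le : D' ≤ D
  X_le : X ⊆ D
  A_D : A n ∈ D
  I_D : (A n * B n) ^ 3 ∈ D
  D_le : D ≤ Subgroup.closure ((D' : Set Γ) ∪ (insert (A n) (insert ((A n * B n) ^ 3) X)))
  Xb_mem : ∀ l, l < n → Xb l ∈ Subgroup.closure ((D : Set Γ) ∪ {B l})
  commA : ∀ x ∈ D', Commute x (A n)
  commB : ∀ x ∈ D', Commute x (B n)
  commAB : ∀ l, l < n → Commute (B l) (A n)
  commBB : ∀ l, l < n → Commute (B l) (B n)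
  normD : ∀ x ∈ D', ∀ K : Finset ℕ, ∀ y ∈ insert (A n) (X ∪ {y | ∃ l, l < n ∧ l ∉ K ∧ y = Xb l}),
    x⁻¹ * y * x ∈ Subgroup.closure (insert (A n) (X ∪ {y | ∃ l, l < n ∧ l ∉ K ∧ y = Xb l}))
  normB : ∀ k, k < n → ∀ K : Finset ℕ, k ∉ K →
    ∀ y ∈ insert (A n) (X ∪ {y | ∃ l, l < n ∧ l ∉ K ∧ y = Xb l}),
    (B k)⁻¹ * y * B k ∈ Subgroup.closure (insert (A n) (X ∪ {y | ∃ l, l < n ∧ l ∉ K ∧ y = Xb l})) ∧
    B k * y * (B k)⁻¹ ∈ Subgroup.closure (insert (A n) (X ∪ {y | ∃ l, l < n ∧ l ∉ K ∧ y = Xb l}))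
  normBr : ∀ p ∈ Br', ∀ K : Finset ℕ,
    ∀ y ∈ insert (A n) (X ∪ {y | ∃ l, l < n ∧ l ∉ K.map p.2.toEmbedding ∧ y = Xb l}),
    p.1⁻¹ * y * p.1 ∈ Subgroup.closure (insert (A n) (X ∪ {y | ∃ l, l < n ∧ l ∉ K ∧ y = Xb l}))
  J_le : ∀ k ∈ J, k ≤ n
  J'_lt : ∀ k ∈ J', k < n
  fA : A n ∈ fx ρ W'
  fB : B n ∈ fx ρ W'
  fX : ∀ x ∈ X, x ∈ fs ρ W'
  fXb : ∀ l, l < n → l ∉ J' → Xb l ∈ fs ρ W'
  slot : ∀ l ∈ J', ∃ p ∈ Br, J.map p.2.toEmbedding = insert n (J'.erase l) ∧
    ∀ v ∈ W', ∃ c : Fˣ, ρ (Xb l) v - c • v ∈ mv ρ p.1 W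
  cover : ∀ i, i ≤ n → i ∉ J → ∃ p ∈ Br, p.2 n = i ∧ J'.map p.2.toEmbedding = J ∧
    W ≤ mv ρ p.1 W'

namespace SZ

variable {ρ : Γ →* Module.End F V} {n : ℕ} {A B : ℕ → Γ} {D D' : Subgroup Γ}
  {Br Br' : Subgroup (Γ × Equiv.Perm ℕ)} {X : Set Γ} {Xb : ℕ → Γ} {J J' : Finset ℕ}
  {W W' : Submodule F V}

/-- The twists disjoint from the curves of `K`. -/
def GG (n : ℕ) (B : ℕ → Γ) (D : Subgroup Γ) (K : Finset ℕ) : Subgroup Γ :=
  Subgroup.closure ((D : Set Γ) ∪ {x | ∃ l, l ≤ n ∧ l ∉ K ∧ x = B l})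

/-- The same for the handles before the last one. -/
def KK (n : ℕ) (B : ℕ → Γ) (D' : Subgroup Γ) (K : Finset ℕ) : Subgroup Γ :=
  Subgroup.closure ((D' : Set Γ) ∪ {x | ∃ l, l < n ∧ l ∉ K ∧ x = B l})

/-- The pushes disjoint from the curves of `K`. -/
def PP (n : ℕ) (A : ℕ → Γ) (X : Set Γ) (Xb : ℕ → Γ) (K : Finset ℕ) : Subgroup Γ :=
  Subgroup.closure (insert (A n) (X ∪ {y | ∃ l, l < n ∧ l ∉ K ∧ y = Xb l}))

/-- The elements which move `W` to the members containing `K`. -/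
def SM (n : ℕ) (B : ℕ → Γ) (D : Subgroup Γ) (Br : Subgroup (Γ × Equiv.Perm ℕ)) (J K : Finset ℕ) :
    Set Γ :=
  {x | ∃ g ∈ GG n B D K, ∃ p ∈ Br, K ⊆ J.map p.2.toEmbedding ∧ x = g * p.1}

/-- The elements which move `W'` to the members containing `K` and disjoint from the last
handle. -/
def SM' (n : ℕ) (B : ℕ → Γ) (D' : Subgroup Γ) (Br' : Subgroup (Γ × Equiv.Perm ℕ))
    (J' K : Finset ℕ) : Set Γ :=
  {x | ∃ g ∈ KK n B D' K, ∃ p ∈ Br', K ⊆ J'.map p.2.toEmbedding ∧ x = g * p.1}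

/-- The elements which move `W'` to the members containing `K` and disjoint from the handle `i`. -/
def SI (n : ℕ) (B : ℕ → Γ) (D' : Subgroup Γ) (Br Br' : Subgroup (Γ × Equiv.Perm ℕ))
    (J' K : Finset ℕ) (i : ℕ) : Set Γ :=
  {x | ∃ p ∈ Br, p.2 n = i ∧ ∃ K' : Finset ℕ, K'.map p.2.toEmbedding = K ∧
    ∃ y ∈ SM' n B D' Br' J' K', x = p.1 * y}

variable (H : SZ ρ n A B D D' Br Br' X Xb J J' W W')
include H

theorem inv_le_iff {p : Γ × Equiv.Perm ℕ} (hp : p ∈ Br) (k : ℕ) : p.2.symm k ≤ n ↔ k ≤ n := by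
  rw [← H.le_iff p hp, Equiv.apply_symm_apply]

/-- Conjugation by a permutation of the handles. -/
theorem conj_GG {p : Γ × Equiv.Perm ℕ} (hp : p ∈ Br) {K : Finset ℕ} {g : Γ}
    (hg : g ∈ GG n B D (K.map p.2.toEmbedding)) : p.1⁻¹ * g * p.1 ∈ GG n B D K := by
  have hle : GG n B D (K.map p.2.toEmbedding) ≤
      (GG n B D K).comap (MulAut.conj p.1⁻¹).toMonoidHom := by
    rw [GG, Subgroup.closure_le]
    rintro x (hx | ⟨l, h1, h2, rfl⟩)
    · change p.1⁻¹ * x * (p.1⁻¹)⁻¹ ∈ GG n B D K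
      rw [inv_inv]
      exact Subgroup.subset_closure (Or.inl (H.conjD p hp x hx))
    · change p.1⁻¹ * B l * (p.1⁻¹)⁻¹ ∈ GG n B D K
      rw [inv_inv]
      have h3 : p.2.symm l ≤ n := (H.inv_le_iff hp l).2 h1
      have h4 := H.conjB p hp _ h3
      rw [Equiv.apply_symm_apply] at h4
      rw [mul_assoc, ← h4, inv_mul_cancel_left]
      refine Subgroup.subset_closure (Or.inr ⟨_, h3, fun h5 => h2 ?_, rfl⟩)
      rw [Finset.mem_map]
      exact ⟨_, h5, Equiv.apply_symm_apply _ _⟩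
  have h := hle hg
  change p.1⁻¹ * g * (p.1⁻¹)⁻¹ ∈ GG n B D K at h
  rwa [inv_inv] at h

theorem KK_le_GG (K : Finset ℕ) : KK n B D' K ≤ GG n B D (insert n K) := by
  rw [KK, Subgroup.closure_le]
  rintro x (hx | ⟨l, h1, h2, rfl⟩)
  · exact Subgroup.subset_closure (Or.inl (H.D'_le hx))
  · refine Subgroup.subset_closure (Or.inr ⟨l, h1.le, ?_, rfl⟩)
    rw [Finset.mem_insert]
    rintro (h3 | h3)
    · omega
    · exact h2 h3

omit H in
theorem KK_anti {K K' : Finset ℕ} (h : K ⊆ K') : KK n B D' K' ≤ KK n B D' K := by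
  apply Subgroup.closure_mono
  rintro x (hx | ⟨l, h1, h2, rfl⟩)
  · exact Or.inl hx
  · exact Or.inr ⟨l, h1, fun h3 => h2 (h h3), rfl⟩

omit H in
theorem D_le_GG (K : Finset ℕ) : D ≤ GG n B D K := fun _ hx =>
  Subgroup.subset_closure (Or.inl hx)

omit H in
theorem D'_le_KK (K : Finset ℕ) : D' ≤ KK n B D' K := fun _ hx =>
  Subgroup.subset_closure (Or.inl hx)

theorem PP_le_GG (K : Finset ℕ) : PP n A X Xb K ≤ GG n B D (insert n K) := by
  rw [PP, Subgroup.closure_le]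
  rintro x (rfl | hx | ⟨l, h1, h2, rfl⟩)
  · exact D_le_GG _ H.A_D
  · exact D_le_GG _ (H.X_le hx)
  · have h3 := H.Xb_mem l h1
    refine (Subgroup.closure_mono ?_) h3
    rintro y (hy | rfl)
    · exact Or.inl hy
    · refine Or.inr ⟨l, h1.le, ?_, rfl⟩
      rw [Finset.mem_insert]
      rintro (h4 | h4)
      · omega
      · exact h2 h4

/-- The members are stable. -/
theorem GG_le_sb (K : Finset ℕ) : GG n B D K ≤ sb ρ (sp ρ (SM n B D Br J K) W) := by
  have key : ∀ g ∈ GG n B D K,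
      mv ρ g (sp ρ (SM n B D Br J K) W) ≤ sp ρ (SM n B D Br J K) W := by
    intro g hg
    apply mv_sp_le
    rintro _ ⟨k, hk, p, hp, h1, rfl⟩
    exact mv_le_sp ⟨g * k, mul_mem hg hk, p, hp, h1, (mul_assoc _ _ _).symm⟩
  exact fun g hg => mem_sb_of_mv_le (key g hg) (key _ (inv_mem hg))

theorem KK_le_sb (K : Finset ℕ) : KK n B D' K ≤ sb ρ (sp ρ (SM' n B D' Br' J' K) W') := by
  have key : ∀ g ∈ KK n B D' K,
      mv ρ g (sp ρ (SM' n B D' Br' J' K) W') ≤ sp ρ (SM' n B D' Br' J' K) W' := by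
    intro g hg
    apply mv_sp_le
    rintro _ ⟨k, hk, p, hp, h1, rfl⟩
    exact mv_le_sp ⟨g * k, mul_mem hg hk, p, hp, h1, (mul_assoc _ _ _).symm⟩
  exact fun g hg => mem_sb_of_mv_le (key g hg) (key _ (inv_mem hg))

/-- Permutations of the handles permute the spans. -/
theorem mv_SM {p : Γ × Equiv.Perm ℕ} (hp : p ∈ Br) (K : Finset ℕ) :
    mv ρ p.1 (sp ρ (SM n B D Br J K) W) ≤ sp ρ (SM n B D Br J (K.map p.2.toEmbedding)) W := by
  apply mv_sp_le
  rintro _ ⟨g, hg, r, hr, h1, rfl⟩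
  have h2 : p.1 * g * p.1⁻¹ ∈ GG n B D (K.map p.2.toEmbedding) := by
    have h3 : g ∈ GG n B D ((K.map p.2.toEmbedding).map (p⁻¹).2.toEmbedding) := by
      convert hg using 2
      rw [Finset.map_map]
      convert Finset.map_refl
      ext x
      exact Equiv.symm_apply_apply _ _
    have h4 := H.conj_GG (inv_mem hp) h3
    change (p.1⁻¹)⁻¹ * g * p.1⁻¹ ∈ GG n B D (K.map p.2.toEmbedding) at h4
    rwa [inv_inv] at h4
  refine mv_le_sp ⟨_, h2, p * r, mul_mem hp hr, ?_, ?_⟩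
  · intro x hx
    rw [Finset.mem_map] at hx
    obtain ⟨y, hy, rfl⟩ := hx
    have h3 := h1 hy
    rw [Finset.mem_map] at h3 ⊢
    obtain ⟨z, hz, rfl⟩ := h3
    exact ⟨z, hz, rfl⟩
  · rw [Prod.fst_mul]
    group

/-- `R_n` fixes the part before the last handle. -/
theorem fix_SM' (hcA : ∀ p ∈ Br', Commute p.1 (A n)) (hcB : ∀ p ∈ Br', Commute p.1 (B n))
    (K : Finset ℕ) : A n ∈ fx ρ (sp ρ (SM' n B D' Br' J' K) W') ∧
      B n ∈ fx ρ (sp ρ (SM' n B D' Br' J' K) W') := by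
  have key : ∀ z : Γ, z ∈ fx ρ W' → (∀ p ∈ Br', Commute p.1 z) →
      (∀ x ∈ D', Commute x z) → (∀ l, l < n → Commute (B l) z) →
      z ∈ fx ρ (sp ρ (SM' n B D' Br' J' K) W') := by
    intro z hz h1 h2 h3
    have hK : ∀ g ∈ KK n B D' K, Commute g z := by
      have hle : KK n B D' K ≤ Subgroup.centralizer {z} := by
        rw [KK, Subgroup.closure_le]
        rintro x (hx | ⟨l, h4, h5, rfl⟩)
        · exact Subgroup.mem_centralizer_singleton_iff.2 (h2 x hx).eq
        · exact Subgroup.mem_centralizer_singleton_iff.2 (h3 l h4).eq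
      intro g hg
      exact Subgroup.mem_centralizer_singleton_iff.1 (hle hg)
    intro v hv
    have hle : sp ρ (SM' n B D' Br' J' K) W' ≤ LinearMap.eqLocus (ρ z) LinearMap.id := by
      apply sp_le
      rintro _ ⟨g, hg, p, hp, -, rfl⟩ v hv
      rw [LinearMap.mem_eqLocus]
      exact fx_mv_of_comm hz ((hK g hg).mul_left (h1 p hp)).symm v hv
    exact (LinearMap.mem_eqLocus.1 (hle hv))
  exact ⟨key _ H.fA hcA H.commA H.commAB, key _ H.fB hcB H.commB H.commBB⟩

theorem conj_PP_KK {K : Finset ℕ} {g z : Γ} (hg : g ∈ KK n B D' K) (hz : z ∈ PP n A X Xb K) :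
    g⁻¹ * z * g ∈ PP n A X Xb K := by
  -- the elements which normalise `PP`
  have key : ∀ x : Γ, (∀ y ∈ insert (A n) (X ∪ {y | ∃ l, l < n ∧ l ∉ K ∧ y = Xb l}),
      x⁻¹ * y * x ∈ PP n A X Xb K) → ∀ z ∈ PP n A X Xb K, x⁻¹ * z * x ∈ PP n A X Xb K := by
    intro x hx z hz
    have hle : PP n A X Xb K ≤ (PP n A X Xb K).comap (MulAut.conj x⁻¹).toMonoidHom := by
      conv_lhs => rw [PP]
      rw [Subgroup.closure_le]
      intro y hy
      change x⁻¹ * y * (x⁻¹)⁻¹ ∈ PP n A X Xb K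
      rw [inv_inv]
      exact hx y hy
    have h := hle hz
    change x⁻¹ * z * (x⁻¹)⁻¹ ∈ PP n A X Xb K at h
    rwa [inv_inv] at h
  rw [KK] at hg
  induction hg using Subgroup.closure_induction'' generalizing z with
  | one =>
    rwa [inv_one, one_mul, mul_one]
  | mem x hx =>
    rcases hx with hx | ⟨l, h1, h2, rfl⟩
    · exact key x (H.normD x hx K) z hz
    · exact key _ (fun y hy => (H.normB l h1 K h2 y hy).1) z hz
  | inv_mem x hx =>
    rcases hx with hx | ⟨l, h1, h2, rfl⟩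
    · exact key _ (H.normD x⁻¹ (inv_mem hx) K) z hz
    · refine key _ (fun y hy => ?_) z hz
      rw [inv_inv]
      exact (H.normB l h1 K h2 y hy).2
  | mul x y _ _ h1 h2 =>
    have h3 := h2 (h1 hz)
    have h4 : (x * y)⁻¹ * z * (x * y) = y⁻¹ * (x⁻¹ * z * x) * y := by group
    rwa [h4]

theorem conj_PP_Br {K : Finset ℕ} {p : Γ × Equiv.Perm ℕ} (hp : p ∈ Br') {z : Γ}
    (hz : z ∈ PP n A X Xb (K.map p.2.toEmbedding)) : p.1⁻¹ * z * p.1 ∈ PP n A X Xb K := by
  have hle : PP n A X Xb (K.map p.2.toEmbedding) ≤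
      (PP n A X Xb K).comap (MulAut.conj p.1⁻¹).toMonoidHom := by
    conv_lhs => rw [PP]
    rw [Subgroup.closure_le]
    intro y hy
    change p.1⁻¹ * y * (p.1⁻¹)⁻¹ ∈ PP n A X Xb K
    rw [inv_inv]
    exact H.normBr p hp K y hy
  have h := hle hz
  change p.1⁻¹ * z * (p.1⁻¹)⁻¹ ∈ PP n A X Xb K at h
  rwa [inv_inv] at h

/-- The pushes move the vectors of `W'` by vectors of the members at the last handle. -/
theorem push_W' {K : Finset ℕ} (hK : K ⊆ J') {z : Γ} (hz : z ∈ PP n A X Xb K) :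
    ∀ v ∈ W', ∃ c : Fˣ, ρ z v - c • v ∈ sp ρ (SM n B D Br J (insert n K)) W := by
  have hsb : ∀ z ∈ PP n A X Xb K, ∀ u ∈ sp ρ (SM n B D Br J (insert n K)) W,
      ρ z u ∈ sp ρ (SM n B D Br J (insert n K)) W :=
    fun z hz u hu => sb_apply (H.GG_le_sb _ (H.PP_le_GG K hz)) hu
  have hz0 := hz
  rw [PP] at hz
  induction hz using Subgroup.closure_induction with
  | one =>
    intro v _
    refine ⟨1, ?_⟩
    rw [rho_one, one_smul, sub_self]
    exact zero_mem _
  | mem x hx =>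
    intro v hv
    rcases hx with rfl | hx | ⟨l, h1, h2, rfl⟩
    · refine ⟨1, ?_⟩
      rw [H.fA v hv, one_smul, sub_self]
      exact zero_mem _
    · obtain ⟨c, hc⟩ := H.fX x hx
      refine ⟨c, ?_⟩
      rw [hc v hv, sub_self]
      exact zero_mem _
    · by_cases h3 : l ∈ J'
      · obtain ⟨p, hp, h4, h5⟩ := H.slot l h3
        have h7 : p.1 ∈ SM n B D Br J (insert n K) := by
          refine ⟨1, one_mem _, p, hp, ?_, (one_mul _).symm⟩
          rw [h4]
          apply Finset.insert_subset_insert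
          intro x hx
          rw [Finset.mem_erase]
          exact ⟨fun h6 => h2 (h6 ▸ hx), hK hx⟩
        obtain ⟨c, hc⟩ := h5 v hv
        exact ⟨c, mv_le_sp h7 hc⟩
      · obtain ⟨c, hc⟩ := H.fXb l h1 h3
        refine ⟨c, ?_⟩
        rw [hc v hv, sub_self]
        exact zero_mem _
  | mul x y hx hy h1 h2 =>
    intro v hv
    obtain ⟨c, hc⟩ := h1 hx v hv
    obtain ⟨d, hd⟩ := h2 hy v hv
    refine ⟨d * c, ?_⟩
    have h3 : ρ (x * y) v - (d * c) • v = ρ x (ρ y v - d • v) + d • (ρ x v - c • v) := by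
      rw [rho_mul, map_sub, smul_sub, mul_smul, map_usmul]
      abel
    rw [h3]
    exact add_mem (hsb x hx _ hd) (Submodule.smul_mem _ _ hc)
  | inv x hx h1 =>
    intro v hv
    obtain ⟨c, hc⟩ := h1 hx v hv
    refine ⟨c⁻¹, ?_⟩
    have h3 : ρ x⁻¹ v - c⁻¹ • v = -(c⁻¹ • (ρ x⁻¹ (ρ x v - c • v))) := by
      rw [map_sub, rho_inv, map_usmul, smul_sub, inv_smul_smul]
      abel
    rw [h3]
    exact neg_mem (Submodule.smul_mem _ _ (hsb _ (inv_mem hx) _ hc))

/-- The same for the members before the last handle. -/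
theorem push_SM' {K : Finset ℕ} {z : Γ} (hz : z ∈ PP n A X Xb K) :
    mv ρ z (sp ρ (SM' n B D' Br' J' K) W') ≤ sp ρ (SM' n B D' Br' J' K) W' ⊔
      sp ρ (SM n B D Br J (insert n K)) W := by
  apply mv_sp_le
  rintro _ ⟨g, hg, p, hp, h1, rfl⟩ _ ⟨v, hv, rfl⟩
  obtain ⟨K', rfl⟩ : ∃ K' : Finset ℕ, K = K'.map p.2.toEmbedding := by
    refine ⟨K.map p.2.symm.toEmbedding, ?_⟩
    rw [Finset.map_map]
    convert Finset.map_refl.symm
    ext x
    exact Equiv.apply_symm_apply _ _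
  have h2 : K' ⊆ J' := by
    intro x hx
    have h3 := h1 (Finset.mem_map_of_mem p.2.toEmbedding hx)
    rw [Finset.mem_map] at h3
    obtain ⟨y, hy, h4⟩ := h3
    rwa [← p.2.injective h4]
  have h3 := H.conj_PP_Br hp (H.conj_PP_KK hg hz)
  obtain ⟨c, h4⟩ := H.push_W' h2 h3 v hv
  have h5 : ρ (z * (g * p.1)) v = c • ρ (g * p.1) v +
      ρ g (ρ p.1 (ρ (p.1⁻¹ * (g⁻¹ * z * g) * p.1) v - c • v)) := by
    rw [map_sub, map_sub, map_usmul, map_usmul, ← rho_mul, ← rho_mul, ← rho_mul]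
    have e : g * p.1 * (p.1⁻¹ * (g⁻¹ * z * g) * p.1) = z * (g * p.1) := by group
    rw [e]
    abel
  rw [h5]
  have h6 : g * p.1 ∈ SM' n B D' Br' J' (K'.map p.2.toEmbedding) := ⟨g, hg, p, hp, h1, rfl⟩
  apply add_mem
  · apply Submodule.mem_sup_left
    exact Submodule.smul_mem _ _ (mv_le_sp h6 (mv_mem _ hv))
  · apply Submodule.mem_sup_right
    apply sb_apply (H.GG_le_sb _ (H.KK_le_GG _ hg))
    have h6 := H.mv_SM (H.Br'_le hp) (insert n K') (mv_mem p.1 h4)
    rwa [Finset.map_insert, show p.2.toEmbedding n = n from H.last p hp] at h6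

/-- The group of all twists disjoint from the `A`'s. -/
theorem D_le_sb (hcA : ∀ p ∈ Br', Commute p.1 (A n)) (hcB : ∀ p ∈ Br', Commute p.1 (B n))
    (K : Finset ℕ) : D ≤ sb ρ (sp ρ (SM' n B D' Br' J' K) W' ⊔
      sp ρ (SM n B D Br J (insert n K)) W) := by
  refine H.D_le.trans ?_
  rw [Subgroup.closure_le]
  have hD : ∀ x ∈ D, mv ρ x (sp ρ (SM n B D Br J (insert n K)) W) =
      sp ρ (SM n B D Br J (insert n K)) W := fun x hx => H.GG_le_sb _ (D_le_GG _ hx)
  have hf := H.fix_SM' hcA hcB K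
  rintro x (hx | rfl | rfl | hx)
  · change mv ρ x _ = _
    rw [mv_sup, hD x (H.D'_le hx), show mv ρ x _ = _ from H.KK_le_sb K (D'_le_KK K hx)]
  · change mv ρ _ _ = _
    rw [mv_sup, hD _ H.A_D, show mv ρ (A n) _ = _ from fx_le_sb ρ _ hf.1]
  · change mv ρ _ _ = _
    rw [mv_sup, hD _ H.I_D,
      show mv ρ ((A n * B n) ^ 3) _ = _ from fx_le_sb ρ _ (pow_mem (mul_mem hf.1 hf.2) 3)]
  · have hX : x ∈ PP n A X Xb K :=
      Subgroup.subset_closure (Set.mem_insert_of_mem _ (Or.inl hx))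
    have key : ∀ z ∈ PP n A X Xb K, z ∈ D → mv ρ z (sp ρ (SM' n B D' Br' J' K) W' ⊔
        sp ρ (SM n B D Br J (insert n K)) W) ≤ sp ρ (SM' n B D' Br' J' K) W' ⊔
        sp ρ (SM n B D Br J (insert n K)) W := by
      intro z hz hzD
      rw [mv_sup, hD z hzD]
      exact sup_le (H.push_SM' hz) le_sup_right
    exact mem_sb_of_mv_le (key x hX (H.X_le hx)) (key _ (inv_mem hX) (inv_mem (H.X_le hx)))

omit H in
theorem SM'_anti {K K' : Finset ℕ} (h : K ⊆ K') :
    SM' n B D' Br' J' K' ⊆ SM' n B D' Br' J' K := by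
  rintro _ ⟨g, hg, p, hp, h1, rfl⟩
  exact ⟨g, KK_anti h hg, p, hp, h.trans h1, rfl⟩

omit H in
theorem map_symm_map (p : Equiv.Perm ℕ) (K : Finset ℕ) :
    (K.map p.symm.toEmbedding).map p.toEmbedding = K := by
  rw [Finset.map_map]
  convert Finset.map_refl
  ext x
  exact Equiv.apply_symm_apply _ _

omit H in
theorem SI_anti {K K' : Finset ℕ} (h : K ⊆ K') (i : ℕ) :
    SI n B D' Br Br' J' K' i ⊆ SI n B D' Br Br' J' K i := by
  rintro _ ⟨p, hp, h1, K'', rfl, y, hy, rfl⟩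
  refine ⟨p, hp, h1, K.map p.2.symm.toEmbedding, map_symm_map _ _, y, SM'_anti ?_ hy, rfl⟩
  intro x hx
  rw [Finset.mem_map] at hx
  obtain ⟨z, hz, rfl⟩ := hx
  have h2 := h hz
  rw [Finset.mem_map] at h2
  obtain ⟨w, hw, rfl⟩ := h2
  change p.2.symm (p.2 w) ∈ K''
  rwa [Equiv.symm_apply_apply]

omit H in
theorem sp_mono {S S' : Set Γ} (h : S ⊆ S') (U : Submodule F V) : sp ρ S U ≤ sp ρ S' U :=
  sp_le fun _ hg => mv_le_sp (h hg)

/-- `A i` fixes the part disjoint from the handle `i`. -/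
theorem fix_SI (hcA : ∀ p ∈ Br', Commute p.1 (A n)) (hcB : ∀ p ∈ Br', Commute p.1 (B n))
    (K : Finset ℕ) (i : ℕ) : A i ∈ fx ρ (sp ρ (SI n B D' Br Br' J' K i) W') := by
  have hle : sp ρ (SI n B D' Br Br' J' K i) W' ≤
      LinearMap.eqLocus (ρ (A i)) LinearMap.id := by
    apply sp_le
    rintro _ ⟨p, hp, rfl, K', -, y, hy, rfl⟩ v hv
    rw [LinearMap.mem_eqLocus]
    have h1 : A n ∈ fx ρ (mv ρ y W') :=
      fx_anti ρ (mv_le_sp hy) (H.fix_SM' hcA hcB K').1
    have h2 := fx_mv_of_eq h1 (H.conjA p hp n le_rfl).symm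
    rw [mv_mul] at hv
    exact h2 v hv
  exact fun v hv => LinearMap.mem_eqLocus.1 (hle hv)

/-- **The span.** -/
theorem span_le (hcA : ∀ p ∈ Br', Commute p.1 (A n)) (hcB : ∀ p ∈ Br', Commute p.1 (B n))
    (t : ℕ) : ∀ K T : Finset ℕ, T.card = t → K.card + t = J.card + 1 → Disjoint K T →
      (∀ k ∈ K, k ≤ n) → (∀ k ∈ T, k ≤ n) →
      sp ρ (SM n B D Br J K) W ≤ ⨆ i ∈ T, sp ρ (SI n B D' Br Br' J' K i) W' := by
  induction t with
  | zero =>
    intro K T _ h2 _ _ _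
    apply sp_le
    rintro _ ⟨g, hg, p, hp, h6, rfl⟩
    have h7 := Finset.card_le_card h6
    rw [Finset.card_map] at h7
    omega
  | succ t ih =>
    intro K T h1 h2 h3 h4 h5
    obtain ⟨U, hU⟩ : ∃ U, U = ⨆ i ∈ T, sp ρ (SI n B D' Br Br' J' K i) W' := ⟨_, rfl⟩
    rw [← hU]
    have hUi : ∀ i ∈ T, sp ρ (SI n B D' Br Br' J' K i) W' ≤ U := fun i hi => by
      rw [hU]; exact le_iSup₂_of_le i hi le_rfl
    -- the members
    have stepA : ∀ p ∈ Br, K ⊆ J.map p.2.toEmbedding → mv ρ p.1 W ≤ U := by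
      intro p hp hK
      obtain ⟨i, hi, hi2⟩ : ∃ i ∈ T, i ∉ J.map p.2.toEmbedding := by
        by_contra hcon
        push_neg at hcon
        have h6 : K ∪ T ⊆ J.map p.2.toEmbedding := Finset.union_subset hK hcon
        have h7 := Finset.card_le_card h6
        rw [Finset.card_union_of_disjoint h3, Finset.card_map] at h7
        omega
      have h6 : p.2.symm i ≤ n := (H.inv_le_iff hp i).2 (h5 i hi)
      have h7 : p.2.symm i ∉ J := by
        intro h8
        apply hi2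
        rw [Finset.mem_map]
        exact ⟨_, h8, Equiv.apply_symm_apply _ _⟩
      obtain ⟨r, hr, r1, r2, r3⟩ := H.cover _ h6 h7
      refine le_trans ?_ (hUi i hi)
      have h8 : (p * r).1 ∈ SI n B D' Br Br' J' K i := by
        refine ⟨p * r, mul_mem hp hr, ?_, K.map (p * r).2.symm.toEmbedding, map_symm_map _ _, 1,
          ⟨1, one_mem _, 1, one_mem _, ?_, ?_⟩, (mul_one _).symm⟩
        · change p.2 (r.2 n) = i
          rw [r1, Equiv.apply_symm_apply]
        · intro x hx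
          rw [Finset.mem_map] at hx
          obtain ⟨z, hz, rfl⟩ := hx
          have h9 := hK hz
          rw [Finset.mem_map] at h9
          obtain ⟨y, hy, rfl⟩ := h9
          rw [← r2, Finset.mem_map] at hy
          obtain ⟨w, hw, rfl⟩ := hy
          rw [Finset.mem_map]
          refine ⟨w, hw, ?_⟩
          change w = (p * r).2.symm ((p * r).2 w)
          rw [Equiv.symm_apply_apply]
        · change (1 : Γ) = 1 * 1
          rw [one_mul]
      calc mv ρ p.1 W ≤ mv ρ p.1 (mv ρ r.1 W') := mv_mono ρ _ r3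
        _ = mv ρ (p * r).1 W' := by rw [← mv_mul]; rfl
        _ ≤ _ := mv_le_sp h8
    -- stability
    have stepB : GG n B D K ≤ sb ρ U := by
      have keyD : ∀ x ∈ D, mv ρ x U ≤ U := by
        intro x hx
        have h6 : ∀ i ∈ T, mv ρ x (sp ρ (SI n B D' Br Br' J' K i) W') ≤ U := by
          intro i hi
          apply mv_sp_le
          rintro _ ⟨p, hp, h7, K', h8, y, hy, rfl⟩
          have h9 : x * (p.1 * y) = p.1 * (p.1⁻¹ * x * p.1 * y) := by group
          rw [h9, mv_mul, mv_mul]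
          have h10 := H.conjD p hp x hx
          have h11 : mv ρ (p.1⁻¹ * x * p.1) (mv ρ y W') ≤ sp ρ (SM' n B D' Br' J' K') W' ⊔
              sp ρ (SM n B D Br J (insert n K')) W := by
            refine le_trans (mv_mono ρ _ (le_trans (mv_le_sp hy) le_sup_left))
              (le_of_eq (H.D_le_sb hcA hcB K' h10))
          refine le_trans (mv_mono ρ _ h11) ?_
          rw [mv_sup]
          refine sup_le ?_ ?_
          · refine le_trans ?_ (hUi i hi)
            apply mv_sp_le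
            intro z hz
            exact mv_le_sp ⟨p, hp, h7, K', h8, z, hz, rfl⟩
          · refine le_trans (H.mv_SM hp _) ?_
            rw [Finset.map_insert, h8, show p.2.toEmbedding n = i from h7]
            have hiK : i ∉ K := fun h12 => Finset.disjoint_left.1 h3 h12 hi
            refine le_trans (ih (insert i K) (T.erase i) ?_ ?_ ?_ ?_ ?_) ?_
            · rw [Finset.card_erase_of_mem hi, h1]; rfl
            · rw [Finset.card_insert_of_notMem hiK]; omega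
            · rw [Finset.disjoint_left]
              intro z hz hz2
              rw [Finset.mem_insert] at hz
              rw [Finset.mem_erase] at hz2
              rcases hz with rfl | hz
              · exact hz2.1 rfl
              · exact Finset.disjoint_left.1 h3 hz hz2.2
            · intro k hk
              rw [Finset.mem_insert] at hk
              rcases hk with rfl | hk
              · exact h5 _ hi
              · exact h4 k hk
            · intro k hk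
              exact h5 k (Finset.mem_of_mem_erase hk)
            · refine iSup₂_le fun j hj => ?_
              exact le_trans (sp_mono (SI_anti (Finset.subset_insert _ _) j) W')
                (hUi j (Finset.mem_of_mem_erase hj))
        rw [← mv_le_mv ρ x⁻¹, ← mv_mul, inv_mul_cancel, mv_one]
        conv_lhs => rw [hU]
        refine iSup₂_le fun i hi => ?_
        rw [← mv_le_mv ρ x, ← mv_mul, mul_inv_cancel, mv_one]
        exact h6 i hi
      have keyB : ∀ l, l ≤ n → l ∉ K → mv ρ (B l) U ≤ U ∧ mv ρ (B l)⁻¹ U ≤ U := by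
        intro l hl hlK
        have h6 : ∀ i ∈ T, ∀ w ∈ SI n B D' Br Br' J' K i,
            mv ρ (B l) (mv ρ w W') ≤ U ∧ mv ρ (B l)⁻¹ (mv ρ w W') ≤ U := by
          rintro i hi _ ⟨p, hp, h7, K', h8, y, hy, rfl⟩
          have h9 : p.2.symm l ≤ n := (H.inv_le_iff hp l).2 hl
          have h10 := H.conjB p hp _ h9
          rw [Equiv.apply_symm_apply] at h10
          have h11 : p.2.symm l ∉ K' := by
            intro h12
            apply hlK
            rw [← h8, Finset.mem_map]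
            exact ⟨_, h12, Equiv.apply_symm_apply _ _⟩
          have e1 : B l * (p.1 * y) = p.1 * (B (p.2.symm l) * y) := by
            rw [← mul_assoc, ← h10, mul_assoc]
          have e2 : (B l)⁻¹ * (p.1 * y) = p.1 * ((B (p.2.symm l))⁻¹ * y) := by
            have h12 : (B l)⁻¹ * p.1 = p.1 * (B (p.2.symm l))⁻¹ := by
              rw [inv_mul_eq_iff_eq_mul, ← mul_assoc, ← h10, mul_inv_cancel_right]
            rw [← mul_assoc, h12, mul_assoc]
          rw [← mv_mul, ← mv_mul, e1, e2]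
          rcases Nat.lt_or_ge (p.2.symm l) n with h12 | h12
          · have hm : B (p.2.symm l) ∈ KK n B D' K' :=
              Subgroup.subset_closure (Or.inr ⟨_, h12, h11, rfl⟩)
            obtain ⟨g, hg, r, hr, h13, rfl⟩ := hy
            have m1 : p.1 * (B (p.2.symm l) * (g * r.1)) ∈ SI n B D' Br Br' J' K i :=
              ⟨p, hp, h7, K', h8, _, ⟨B (p.2.symm l) * g, mul_mem hm hg, r, hr, h13, rfl⟩,
                by group⟩
            have m2 : p.1 * ((B (p.2.symm l))⁻¹ * (g * r.1)) ∈ SI n B D' Br Br' J' K i :=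
              ⟨p, hp, h7, K', h8, _,
                ⟨(B (p.2.symm l))⁻¹ * g, mul_mem (inv_mem hm) hg, r, hr, h13, rfl⟩, by group⟩
            exact ⟨le_trans (mv_le_sp m1) (hUi i hi), le_trans (mv_le_sp m2) (hUi i hi)⟩
          · have h14 : p.2.symm l = n := le_antisymm h9 h12
            rw [h14]
            have hfB : B n ∈ fx ρ (mv ρ y W') :=
              fx_anti ρ (mv_le_sp hy) (H.fix_SM' hcA hcB K').2
            have m1 : p.1 * y ∈ SI n B D' Br Br' J' K i := ⟨p, hp, h7, K', h8, y, hy, rfl⟩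
            have hin : mv ρ (p.1 * y) W' ≤ U := le_trans (mv_le_sp m1) (hUi i hi)
            rw [mv_mul ρ p.1, mv_mul ρ (B n), show mv ρ (B n) (mv ρ y W') = _ from
              fx_le_sb ρ _ hfB, mv_mul ρ p.1, mv_mul ρ (B n)⁻¹,
              show mv ρ (B n)⁻¹ (mv ρ y W') = _ from fx_le_sb ρ _ (inv_mem hfB), ← mv_mul]
            exact ⟨hin, hin⟩
        have h7 : ∀ x : Γ, (∀ i ∈ T, ∀ w ∈ SI n B D' Br Br' J' K i, mv ρ x (mv ρ w W') ≤ U) →
            mv ρ x U ≤ U := by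
          intro x hx
          rw [← mv_le_mv ρ x⁻¹, ← mv_mul, inv_mul_cancel, mv_one]
          conv_lhs => rw [hU]
          refine iSup₂_le fun i hi => ?_
          rw [← mv_le_mv ρ x, ← mv_mul, mul_inv_cancel, mv_one]
          apply mv_sp_le
          intro w hw
          rw [mv_mul]
          exact hx i hi w hw
        exact ⟨h7 _ fun i hi w hw => (h6 i hi w hw).1, h7 _ fun i hi w hw => (h6 i hi w hw).2⟩
      rw [GG, Subgroup.closure_le]
      rintro x (hx | ⟨l, h6, h7, rfl⟩)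
      · exact mem_sb_of_mv_le (keyD x hx) (keyD _ (inv_mem hx))
      · exact mem_sb_of_mv_le (keyB l h6 h7).1 (keyB l h6 h7).2
    apply sp_le
    rintro _ ⟨g, hg, p, hp, h6, rfl⟩
    rw [mv_mul]
    refine le_trans (mv_mono ρ g (stepA p hp h6)) (le_of_eq (stepB hg))

/-- The product of the operators `ρ (A i) - 1`, `i ∈ T`, kills the span of the translates of `W`
if `T` has more than `|J|` elements. -/
theorem kill (hcA : ∀ p ∈ Br', Commute p.1 (A n)) (hcB : ∀ p ∈ Br', Commute p.1 (B n))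
    (T : Finset ℕ) (hT : T.card = J.card + 1) (hTn : ∀ k ∈ T, k ≤ n)
    (Φ : Module.End F V) (hΦ : ∀ i ∈ T, ∃ Ψ : Module.End F V, Φ = Ψ * nn ρ (A i)) {g : Γ}
    (hg : g ∈ GG n B D ∅) {v : V} (hv : v ∈ W) : Φ (ρ g v) = 0 := by
  have h1 := H.span_le hcA hcB (J.card + 1) ∅ T hT (by simp) (Finset.disjoint_empty_left _)
    (by simp) hTn
  have h2 : (⨆ i ∈ T, sp ρ (SI n B D' Br Br' J' ∅ i) W') ≤ LinearMap.ker Φ := by
    refine iSup₂_le fun i hi v hv => ?_
    obtain ⟨Ψ, hΨ⟩ := hΦ i hi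
    rw [LinearMap.mem_ker, hΨ, Module.End.mul_apply, nn_eq_zero (H.fix_SI hcA hcB ∅ i) hv,
      map_zero]
  have h3 : ρ g v ∈ sp ρ (SM n B D Br J ∅) W := by
    have h4 : g ∈ SM n B D Br J ∅ := by
      refine ⟨g, hg, 1, one_mem _, Finset.empty_subset _, ?_⟩
      change g = g * 1
      rw [mul_one]
    exact mv_le_sp h4 (mv_mem g hv)
  exact LinearMap.mem_ker.1 (h2 (h1 h3))

end SZ

end Pool.MP_59b15d_al.H60P
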