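import Mathlib
import Pool.Agent.H.MP_59b15d_al.h60p.Span
import Pool.Agent.H.MP_59b15d_al.h60p.HbZ
import Pool.Agent.H.MP_59b15d_al.h60e.Wp

set_option autoImplicit false

/-!
# Front arcs, with the squares of the exchanges known up to central elements
-/

namespace Pool.MP_59b15d_al.H60P

open Module Pool.MP_59b15d_al.H95E Pool.MP_59b15d_al.H93E Pool.MP_59b15d_al.H60E

variable {Γ : Type*} [Group Γ]

section

variable {g : ℕ} {A B C S : ℕ → Γ} {Z : Subgroup Γ}

/-- Exchanges to the right of the arc. -/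
theorem S_fr_right (L : Lk g A B C S) (H : HbZ g A B C S Z) (l i : ℕ) :
    ∀ d, l + d + 1 < i → Commute (S i) (fa C S l d)
  | 0, h => L.SCo i l (by omega) (by omega) (by omega)
  | d + 1, h => by
    have ih := S_fr_right L H l i d (by omega)
    have h1 : Commute (S i) (S (l + d + 1)) := (H.SS _ _ (by omega)).symm
    exact (h1.inv_right.mul_right ih).mul_right h1

/-- Exchanges to the left of the arc. -/
theorem S_fr_left (L : Lk g A B C S) (H : HbZ g A B C S Z) (l i : ℕ) (hi : i + 1 < l) :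
    ∀ d, Commute (S i) (fa C S l d)
  | 0 => L.SCo i l (by omega) (by omega) (by omega)
  | d + 1 => by
    have ih := S_fr_left L H l i hi d
    have h1 : Commute (S i) (S (l + d + 1)) := H.SS _ _ (by omega)
    exact (h1.inv_right.mul_right ih).mul_right h1

/-- Exchanges below the arc. -/
theorem S_fr_mid (L : Lk g A B C S) (H : HbZ g A B C S Z) (l i : ℕ) (hi : l < i) :
    ∀ d, i + 1 < l + d + 1 → l + d + 1 < g → Commute (S i) (fa C S l d)
  | 0, h, _ => by omega
  | d + 1, h, hg => by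
    by_cases h1 : i + 1 < l + d + 1
    · have ih := S_fr_mid L H l i hi d h1 (by omega)
      have h2 : Commute (S i) (S (l + d + 1)) := H.SS _ _ (by omega)
      exact (h2.inv_right.mul_right ih).mul_right h2
    · obtain ⟨d', rfl⟩ : ∃ d', d = d' + 1 := ⟨d - 1, by omega⟩
      obtain rfl : i = l + d' + 1 := by omega
      have e1 : l + (d' + 1) + 1 = l + d' + 1 + 1 := by omega
      have hb := H.br (l + d' + 1) (by omega)
      have hr : Commute (S (l + d' + 1 + 1)) (fa C S l d') :=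
        S_fr_right L H l _ d' (by omega)
      change S (l + d' + 1) * ((S (l + (d' + 1) + 1))⁻¹ * ((S (l + d' + 1))⁻¹ * fa C S l d' *
        S (l + d' + 1)) * S (l + (d' + 1) + 1)) = (S (l + (d' + 1) + 1))⁻¹ *
        ((S (l + d' + 1))⁻¹ * fa C S l d' * S (l + d' + 1)) * S (l + (d' + 1) + 1) *
        S (l + d' + 1)
      rw [e1]
      generalize S (l + d' + 1) = s at *
      generalize S (l + d' + 1 + 1) = t at *
      generalize fa C S l d' = x at *
      have e2 : s * t⁻¹ * s⁻¹ = t⁻¹ * s⁻¹ * t := by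
        have h2 : (t⁻¹ * s⁻¹ * t) * s * t = s := by
          calc (t⁻¹ * s⁻¹ * t) * s * t = t⁻¹ * s⁻¹ * (t * s * t) := by group
            _ = s := by rw [← hb]; group
        calc s * t⁻¹ * s⁻¹ = ((t⁻¹ * s⁻¹ * t) * s * t) * t⁻¹ * s⁻¹ := by rw [h2]
          _ = _ := by group
      have e3 : s * t * s⁻¹ = t⁻¹ * s * t := by
        have h2 : (t⁻¹ * s * t) * s = s * t := by
          calc (t⁻¹ * s * t) * s = t⁻¹ * (s * t * s) := by group
            _ = _ := by rw [hb]; group
        rw [← h2]; group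
      have e4 : s * (t⁻¹ * (s⁻¹ * x * s) * t) = s * t⁻¹ * s⁻¹ * x * (s * t * s⁻¹) * s := by
        group
      rw [e4, e2, e3]
      calc t⁻¹ * s⁻¹ * t * x * (t⁻¹ * s * t) * s = t⁻¹ * s⁻¹ * (t * x) * t⁻¹ * s * t * s := by
            group
        _ = _ := by rw [hr.eq]; group

/-- Moving the left end. -/
theorem S_fr_l (L : Lk g A B C S) (H : HbZ g A B C S Z) (l : ℕ) :
    ∀ d, l + 2 + d < g → S l * fa C S (l + 1) d * (S l)⁻¹ = fa C S l (d + 1)
  | 0, hg => by
    change S l * C (l + 1) * (S l)⁻¹ = (S (l + 0 + 1))⁻¹ * C l * S (l + 0 + 1)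
    have h1 := L.SSC' l (by omega)
    rw [Nat.add_zero, mul_inv_eq_iff_eq_mul]
    calc S l * C (l + 1) = (S (l + 1))⁻¹ * (S (l + 1) * S l * C (l + 1)) := by group
      _ = _ := by rw [h1]; group
  | d + 1, hg => by
    have ih := S_fr_l L H l d (by omega)
    have h1 : Commute (S l) (S (l + 1 + d + 1)) := H.SS _ _ (by omega)
    change S l * ((S (l + 1 + d + 1))⁻¹ * fa C S (l + 1) d * S (l + 1 + d + 1)) * (S l)⁻¹ =
      (S (l + (d + 1) + 1))⁻¹ * fa C S l (d + 1) * S (l + (d + 1) + 1)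
    rw [← ih, show l + (d + 1) + 1 = l + 1 + d + 1 by omega]
    calc S l * ((S (l + 1 + d + 1))⁻¹ * fa C S (l + 1) d * S (l + 1 + d + 1)) * (S l)⁻¹ =
        (S l * (S (l + 1 + d + 1))⁻¹) * fa C S (l + 1) d * (S (l + 1 + d + 1) * (S l)⁻¹) := by
          group
      _ = _ := by rw [h1.inv_right.eq, h1.symm.inv_right.eq]; group

theorem SS_conj_mem (H : HbZ g A B C S Z) (hZ : ∀ z ∈ Z, ∀ x : Γ, Commute z x) {N i : ℕ}
    (hN : N ≤ g) (hi : i + 1 < N) {x : Γ} (hx : x ∈ DD A B C S N) :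
    S i * S i * x * (S i * S i)⁻¹ ∈ DD A B C S N ∧
      (S i * S i)⁻¹ * x * (S i * S i) ∈ DD A B C S N := by
  obtain ⟨z, hz, h1⟩ := H.R6 i (by omega)
  have a1 : A i ∈ DD A B C S N := A_mem_DD (by omega)
  have a2 : A (i + 1) ∈ DD A B C S N := A_mem_DD hi
  have i1 : io A B i ∈ DD A B C S N := io_mem_DD (by omega)
  have i2 : io A B (i + 1) ∈ DD A B C S N := io_mem_DD hi
  have c : C i ∈ DD A B C S N := fr_mem_DD (l := i) (d := 0) (by omega)
  have hw := mul_mem (mul_mem (mul_mem (mul_mem (mul_mem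
    (mul_mem (mul_mem (mul_mem (mul_mem (inv_mem i1) (inv_mem i2)) c) i2) i1)
    (mul_mem (mul_mem (inv_mem i1) c) i1)) (mul_mem (mul_mem (inv_mem i2) c) i2)) c)
    (pow_mem (inv_mem a1) 4)) (pow_mem (inv_mem a2) 4)
  generalize ((io A B i)⁻¹ * (io A B (i + 1))⁻¹ * C i * io A B (i + 1) * io A B i) *
    ((io A B i)⁻¹ * C i * io A B i) * ((io A B (i + 1))⁻¹ * C i * io A B (i + 1)) * C i *
    (A i)⁻¹ ^ 4 * (A (i + 1))⁻¹ ^ 4 = w at *
  rw [h1]
  have h2 : w * z * x * (w * z)⁻¹ = w * x * w⁻¹ := by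
    calc w * z * x * (w * z)⁻¹ = w * (z * x) * z⁻¹ * w⁻¹ := by group
      _ = _ := by rw [(hZ z hz x).eq]; group
  have h3 : (w * z)⁻¹ * x * (w * z) = w⁻¹ * x * w := by
    calc (w * z)⁻¹ * x * (w * z) = z⁻¹ * (w⁻¹ * x * w * z) := by group
      _ = _ := by rw [← (hZ z hz _).eq]; group
  rw [h2, h3]
  exact ⟨mul_mem (mul_mem hw hx) (inv_mem hw), mul_mem (mul_mem (inv_mem hw) hx) hw⟩

/-- The exchanges normalise the group. -/
theorem S_conj_gen (L : Lk g A B C S) (H : HbZ g A B C S Z)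
    (hZ : ∀ z ∈ Z, ∀ x : Γ, Commute z x) {N i : ℕ} (hN : N ≤ g)
    (hi : i + 1 < N) {x : Γ}
    (hx : x ∈ ({x | ∃ k, k < N ∧ (x = A k ∨ x = io A B k)} ∪
      {x | ∃ l d, l + d + 1 < N ∧ x = fa C S l d} : Set Γ)) :
    S i * x * (S i)⁻¹ ∈ DD A B C S N := by
  have hig : i + 1 < g := by omega
  rcases hx with ⟨k, hk, rfl | rfl⟩ | ⟨l, d, h, rfl⟩
  · by_cases h1 : k = i
    · subst h1
      rw [L.SA k hig, mul_inv_cancel_right]
      exact A_mem_DD hi
    · by_cases h2 : k = i + 1
      · subst h2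
        rw [L.SA' i hig, mul_inv_cancel_right]
        exact A_mem_DD (by omega)
      · rw [(L.SAo i k h1 h2).eq, mul_inv_cancel_right]
        exact A_mem_DD hk
  · by_cases h1 : k = i
    · subst h1
      rw [S_io L hig, mul_inv_cancel_right]
      exact io_mem_DD hi
    · by_cases h2 : k = i + 1
      · subst h2
        rw [S_io' L hig, mul_inv_cancel_right]
        exact io_mem_DD (by omega)
      · rw [(S_io_o L h1 h2).eq, mul_inv_cancel_right]
        exact io_mem_DD hk
  · have hss := @SS_conj_mem _ _ _ _ _ _ _ _ H hZ N i hN hi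
    by_cases c1 : i + 1 < l
    · rw [(S_fr_left L H l i c1 d).eq, mul_inv_cancel_right]
      exact fr_mem_DD h
    · by_cases c2 : i + 1 = l
      · subst c2
        rw [S_fr_l L H i d (by omega)]
        exact fr_mem_DD (by omega)
      · by_cases c3 : i = l
        · subst c3
          cases d with
          | zero =>
            change S i * C i * (S i)⁻¹ ∈ _
            rw [H.R7 i hig]
            have i1 : io A B i ∈ DD A B C S N := io_mem_DD (by omega)
            have i2 : io A B (i + 1) ∈ DD A B C S N := io_mem_DD hi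
            exact mul_mem (mul_mem (inv_mem (mul_mem i1 i2)) (fr_mem_DD (l := i) (d := 0) h))
              (mul_mem i1 i2)
          | succ d =>
            rw [← S_fr_l L H i d (by omega)]
            have h1 : S i * (S i * fa C S (i + 1) d * (S i)⁻¹) * (S i)⁻¹ =
                S i * S i * fa C S (i + 1) d * (S i * S i)⁻¹ := by group
            rw [h1]
            exact (hss (fr_mem_DD (by omega))).1
        · -- now `l < i`
          by_cases c4 : l + d + 1 < i
          · rw [(S_fr_right L H l i d c4).eq, mul_inv_cancel_right]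
            exact fr_mem_DD h
          · by_cases c5 : l + d + 1 = i
            · subst c5
              rw [← S_fr_r (C := C) (S := S) l d]
              have h1 : S (l + d + 1) * (S (l + d + 1) * fa C S l (d + 1) * (S (l + d + 1))⁻¹) *
                  (S (l + d + 1))⁻¹ = S (l + d + 1) * S (l + d + 1) * fa C S l (d + 1) *
                  (S (l + d + 1) * S (l + d + 1))⁻¹ := by group
              rw [h1]
              exact (hss (fr_mem_DD (by omega))).1
            · by_cases c6 : l + d + 1 = i + 1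
              · obtain ⟨d', rfl⟩ : ∃ d', d = d' + 1 := ⟨d - 1, by omega⟩
                obtain rfl : i = l + d' + 1 := by omega
                rw [S_fr_r]
                exact fr_mem_DD (by omega)
              · rw [(S_fr_mid L H l i (by omega) d (by omega) (by omega)).eq,
                  mul_inv_cancel_right]
                exact fr_mem_DD h

theorem S_conj (L : Lk g A B C S) (H : HbZ g A B C S Z) (hZ : ∀ z ∈ Z, ∀ x : Γ, Commute z x)
    {N i : ℕ} (hN : N ≤ g) (hi : i + 1 < N)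
    {x : Γ} (hx : x ∈ DD A B C S N) : S i * x * (S i)⁻¹ ∈ DD A B C S N :=
  conj_mem_of_gen rfl (fun _ hy => S_conj_gen L H hZ hN hi hy) x hx

theorem S_conj' (L : Lk g A B C S) (H : HbZ g A B C S Z) (hZ : ∀ z ∈ Z, ∀ x : Γ, Commute z x)
    {N i : ℕ} (hN : N ≤ g) (hi : i + 1 < N)
    {x : Γ} (hx : x ∈ DD A B C S N) : (S i)⁻¹ * x * S i ∈ DD A B C S N := by
  have h1 := S_conj L H hZ hN hi hx
  have h2 : (S i)⁻¹ * x * S i = (S i * S i)⁻¹ * (S i * x * (S i)⁻¹) * (S i * S i) := by group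
  rw [h2]
  exact (SS_conj_mem H hZ hN hi h1).2

theorem Bb_D (L : Lk g A B C S) (H : HbZ g A B C S Z)
    (hZ : ∀ z ∈ Z, ∀ x : Γ, Commute z x) {N N' : ℕ} (hN : N ≤ g) (hN' : N' ≤ N) :
    Bb A B S N' ≤ normS (DD A B C S N) := by
  refine Bb_le (fun i hi x => ?_) fun k hk x => ?_
  · change (S i)⁻¹ * x * S i ∈ _ ↔ _
    constructor
    · intro h
      have h1 := S_conj L H hZ hN (show i + 1 < N by omega) h
      have h2 : S i * ((S i)⁻¹ * x * S i) * (S i)⁻¹ = x := by group
      rwa [h2] at h1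
    · exact S_conj' L H hZ hN (show i + 1 < N by omega)
  · change (io A B k)⁻¹ * x * io A B k ∈ _ ↔ _
    have hI : io A B k ∈ DD A B C S N := io_mem_DD (by omega)
    constructor
    · intro h
      have h1 := mul_mem (mul_mem hI h) (inv_mem hI)
      have h2 : io A B k * ((io A B k)⁻¹ * x * io A B k) * (io A B k)⁻¹ = x := by group
      rwa [h2] at h1
    · intro h
      exact mul_mem (mul_mem (inv_mem hI) h) hI

/-- The same with the central elements. -/
theorem Bb_DZ (L : Lk g A B C S) (H : HbZ g A B C S Z) (hZ : ∀ z ∈ Z, ∀ x : Γ, Commute z x)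
    {N N' : ℕ} (hN : N ≤ g) (hN' : N' ≤ N) {p : Γ × Equiv.Perm ℕ} (hp : p ∈ Bb A B S N') {x : Γ}
    (hx : x ∈ DD A B C S N ⊔ Z) : p.1⁻¹ * x * p.1 ∈ DD A B C S N ⊔ Z := by
  have hle : DD A B C S N ⊔ Z ≤
      (DD A B C S N ⊔ Z).comap (MulAut.conj p.1⁻¹).toMonoidHom := by
    apply sup_le
    · intro y hy
      rw [Subgroup.mem_comap]
      change p.1⁻¹ * y * (p.1⁻¹)⁻¹ ∈ DD A B C S N ⊔ Z
      rw [inv_inv]
      exact (le_sup_left : DD A B C S N ≤ DD A B C S N ⊔ Z) ((Bb_D L H hZ hN hN' hp y).2 hy)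
    · intro y hy
      rw [Subgroup.mem_comap]
      change p.1⁻¹ * y * (p.1⁻¹)⁻¹ ∈ DD A B C S N ⊔ Z
      have h1 : p.1⁻¹ * y * (p.1⁻¹)⁻¹ = y := by
        rw [← (hZ y hy p.1⁻¹).eq, mul_assoc, mul_inv_cancel, mul_one]
      rw [h1]
      exact (le_sup_right : Z ≤ DD A B C S N ⊔ Z) hy
  have h1 := hle hx
  rw [Subgroup.mem_comap] at h1
  change p.1⁻¹ * x * (p.1⁻¹)⁻¹ ∈ DD A B C S N ⊔ Z at h1
  rwa [inv_inv] at h1

end

end Pool.MP_59b15d_al.H60P
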