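import Mathlib
import Pool.Agent.H.MP_59b15d_al.h60p.Hb

set_option autoImplicit false

/-!
# Rotations, and an exact family away from the last handle, modulo the centre
-/

namespace Pool.MP_59b15d_al.H60P

open Module Pool.MP_59b15d_al.H95E Pool.MP_59b15d_al.H93E Pool.MP_59b15d_al.H60E

variable {F V Γ : Type*} [Field F] [AddCommGroup V] [Module F V] [Group Γ]
  {ρ : Γ →* Module.End F V} {g : ℕ} {A B C S : ℕ → Γ} {Z : Subgroup Γ}

/-- Elements acting by scalars stabilise every subspace. -/
theorem scal_sb {z : Γ} (h : ∃ c : F, ∀ v, ρ z v = c • v) (W : Submodule F V) :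
    z ∈ sb ρ W := by
  obtain ⟨c, hc⟩ := h
  have h1 : ∀ v ∈ W, ρ z v ∈ W := fun v hv => by
    rw [hc]
    exact W.smul_mem c hv
  rw [mem_sb]
  apply le_antisymm
  · rintro _ ⟨v, hv, rfl⟩
    exact h1 v hv
  · intro v hv
    by_cases h0 : c = 0
    · have h2 : v = ρ z⁻¹ (ρ z v) := (rho_inv ρ z v).symm
      rw [hc v, h0, zero_smul, map_zero] at h2
      rw [h2]
      exact zero_mem _
    · refine ⟨c⁻¹ • v, W.smul_mem _ hv, ?_⟩
      rw [hc, smul_smul, mul_inv_cancel₀ h0, one_smul]

theorem rt_S (L : Lk g A B C S) (H : HbZ g A B C S Z) {i k : ℕ} (hik : i ≤ k) :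
    ∀ d, k + 1 < i + d → i + d < g → rt S i d * S k = S (k + 1) * rt S i d
  | 0, h, _ => by omega
  | d + 1, h, hg => by
    by_cases h1 : k + 1 < i + d
    · have ih := rt_S L H hik d h1 (by omega)
      change rt S i d * S (i + d) * S k = S (k + 1) * (rt S i d * S (i + d))
      rw [mul_assoc, (H.SS k (i + d) (by omega)).symm.eq, ← mul_assoc, ih, mul_assoc]
    · obtain ⟨d', rfl⟩ : ∃ d', d = d' + 1 := ⟨d - 1, by omega⟩
      obtain rfl : k = i + d' := by omega
      have hb := H.br (i + d') (by omega)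
      have hc : Commute (rt S i d') (S (i + d' + 1)) :=
        rt_comm_of d' fun j h2 h3 => H.SS j _ (by omega)
      change rt S i d' * S (i + d') * S (i + (d' + 1)) * S (i + d') =
        S (i + d' + 1) * (rt S i d' * S (i + d') * S (i + (d' + 1)))
      rw [show i + (d' + 1) = i + d' + 1 by omega]
      calc rt S i d' * S (i + d') * S (i + d' + 1) * S (i + d') =
          rt S i d' * (S (i + d') * S (i + d' + 1) * S (i + d')) := by group
        _ = rt S i d' * S (i + d' + 1) * (S (i + d') * S (i + d' + 1)) := by rw [hb]; group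
        _ = _ := by rw [hc.eq]; group

theorem rt_fr_l (L : Lk g A B C S) (H : HbZ g A B C S Z) (i : ℕ) :
    ∀ d e, i + d + e + 1 < g →
      rt S i d * fa C S (i + d) e * (rt S i d)⁻¹ = fa C S i (e + d)
  | 0, e, _ => by
    change 1 * fa C S i e * 1⁻¹ = _
    group
  | d + 1, e, h => by
    have ih := rt_fr_l L H i d (e + 1) (by omega)
    have h1 := S_fr_l L H (i + d) e (by omega)
    rw [show e + (d + 1) = e + 1 + d by omega, ← ih, ← h1]
    change rt S i d * S (i + d) * fa C S (i + d + 1) e * (rt S i d * S (i + d))⁻¹ = _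
    group

section W

variable {n m p : ℕ} {W : Submodule F V}
  (L : Lk (n + 1) A B C S) (H : HbZ (n + 1) A B C S Z) (E : Ex ρ A B C S (n + 1) m W)
  (hp : p + m = n)

include L H E hp

/-- The front arcs fix `W`. -/
theorem fa_fx (l : ℕ) : ∀ d, l + d + 1 ≤ n → fa C S l d ∈ fx ρ W := by
  obtain ⟨e, he⟩ : ∃ e, e = p - l := ⟨_, rfl⟩
  induction e generalizing l with
  | zero => exact fa_fx_ge E hp (by omega)
  | succ e ih =>
    intro d hd
    cases d with
    | zero => exact E.fC l
    | succ d =>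
      have h1 := ih (l + 1) (by omega) d (by omega)
      have h2 := S_fr_l L H l d (by omega)
      rw [← h2]
      exact fx_conj' (fx_le_sb ρ W (S_fx L E hp (by omega))) h1

omit L in
theorem SS_sb (hr : ∀ z ∈ Z, ∃ c : F, ∀ v, ρ z v = c • v) (h : p < n) :
    S p * S p ∈ sb ρ W := by
  obtain ⟨z, hz, h1⟩ := H.R6 p (by omega)
  rw [h1]
  have c : C p ∈ sb ρ W := fx_le_sb ρ W (E.fC p)
  have a1 : A p ∈ sb ρ W := fx_le_sb ρ W (E.fA p)
  have a2 : A (p + 1) ∈ sb ρ W := fx_le_sb ρ W (E.fA (p + 1))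
  have i1 := io_sb E hp (k := p) (by omega)
  have i2 := io_sb E hp (k := p + 1) (by omega)
  exact mul_mem (mul_mem (mul_mem (mul_mem (mul_mem (mul_mem
    (mul_mem (mul_mem (mul_mem (mul_mem (inv_mem i1) (inv_mem i2)) c) i2) i1)
    (mul_mem (mul_mem (inv_mem i1) c) i1)) (mul_mem (mul_mem (inv_mem i2) c) i2)) c)
    (pow_mem (inv_mem a1) 4)) (pow_mem (inv_mem a2) 4)) (scal_sb (hr z hz) W)

theorem S_sb' {k : ℕ} (hk : p ≤ k) (hk2 : k + 1 < n) : S k ∈ sb ρ (mv ρ (rt S p m)⁻¹ W) := by
  apply sb'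
  rw [conj_of_eq (rt_S L H hk m (by omega) (by omega))]
  exact S_sb E hp (by omega) (by omega)

/-- The front arcs ending at the last handle fix `W'`. -/
theorem fa_fx' {l d : ℕ} (hl : l + d + 1 = n) : fa C S l d ∈ fx ρ (mv ρ (rt S p m)⁻¹ W) := by
  apply fx'
  by_cases h : l < p
  · have h1 := rt_fr_r (C := C) S l (p - l - 1) (i := p) (by omega) m
    rw [show p - l - 1 + m = d by omega] at h1
    rw [h1]
    exact fa_fx L H E hp l _ (by omega)
  · -- `l ≥ p`
    obtain ⟨e, rfl⟩ : ∃ e, l = p + e := ⟨l - p, by omega⟩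
    obtain rfl : m = e + 1 + d := by omega
    have e1 : rt S p (e + 1 + d) = rt S p e * S (p + e) * rt S (p + e + 1) d := by
      rw [rt_split S p (e + 1) d]
      rfl
    have h1 := rt_fr_r (C := C) S (p + e) 0 (i := p + e + 1) rfl d
    rw [Nat.zero_add] at h1
    have h2 := H.R7 (p + e) (by omega)
    have h3 := rt_fr_l L H p e 0 (by omega)
    rw [Nat.zero_add] at h3
    have h4 := conj_of_eq (rt_io L (i := p) (d := e) (by omega) (p + e))
    have h5 := conj_of_eq (rt_io L (i := p) (d := e) (by omega) (p + e + 1))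
    rw [pr_end] at h4
    rw [pr_fix e (by omega)] at h5
    have h6 : rt S p (e + 1 + d) * fa C S (p + e) d * (rt S p (e + 1 + d))⁻¹ =
        (io A B p * io A B (p + e + 1))⁻¹ * fa C S p e * (io A B p * io A B (p + e + 1)) := by
      rw [e1]
      calc rt S p e * S (p + e) * rt S (p + e + 1) d * fa C S (p + e) d *
          (rt S p e * S (p + e) * rt S (p + e + 1) d)⁻¹ =
          rt S p e * (S (p + e) * (rt S (p + e + 1) d * fa C S (p + e) d *
            (rt S (p + e + 1) d)⁻¹) * (S (p + e))⁻¹) * (rt S p e)⁻¹ := by group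
        _ = rt S p e * ((io A B (p + e) * io A B (p + e + 1))⁻¹ * C (p + e) *
            (io A B (p + e) * io A B (p + e + 1))) * (rt S p e)⁻¹ := by
          rw [h1, ← h2]; rfl
        _ = (rt S p e * io A B (p + e) * (rt S p e)⁻¹ *
            (rt S p e * io A B (p + e + 1) * (rt S p e)⁻¹))⁻¹ *
            (rt S p e * C (p + e) * (rt S p e)⁻¹) *
            (rt S p e * io A B (p + e) * (rt S p e)⁻¹ *
              (rt S p e * io A B (p + e + 1) * (rt S p e)⁻¹)) := by group
        _ = _ := by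
          rw [h4, h5]
          congr 1
          congr 1
    rw [h6]
    apply fx_conj
    · exact mul_mem (io_sb E hp (by omega)) (io_sb E hp (by omega))
    · exact fa_fx L H E hp p e (by omega)

end W

end Pool.MP_59b15d_al.H60P
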