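import Mathlib
import Pool.Agent.H.MP_59b15d_al.h60p.Wp
import Pool.Agent.H.MP_59b15d_al.h60e.Pu

set_option autoImplicit false

/-!
# The pushes of a foot of the last handle, modulo the centre
-/

namespace Pool.MP_59b15d_al.H60P

open Module Pool.MP_59b15d_al.H95E Pool.MP_59b15d_al.H93E Pool.MP_59b15d_al.H60E

variable {Γ : Type*} [Group Γ]

/-- The pushes which are disjoint from all `b l`, and the central elements. -/
def XZ (n : ℕ) (XA XB : ℕ → Γ) (Z : Subgroup Γ) : Set Γ := XS n XA XB ∪ (Z : Set Γ)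

/-- The group of the pushes which are disjoint from the curves of `K`, and of the central
elements. -/
def PGz (n : ℕ) (A XA XB : ℕ → Γ) (Z : Subgroup Γ) (K : Finset ℕ) : Subgroup Γ :=
  Subgroup.closure (insert (A n) (XZ n XA XB Z ∪ {x | ∃ l, l < n ∧ l ∉ K ∧ x = XB l}))

/-- The relations of the pushes `XA l`, `XB l` of a foot of the handle `n`, modulo the powers of
`A n` and the elements of `Z`. -/
structure PuZ (n : ℕ) (A B C S XA XB : ℕ → Γ) (Z : Subgroup Γ) : Prop where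
  pA : ∀ k, k < n → ∀ K : Finset ℕ, ∀ y ∈ PGz n A XA XB Z K,
    A k * y * (A k)⁻¹ ∈ PGz n A XA XB Z K ∧ (A k)⁻¹ * y * A k ∈ PGz n A XA XB Z K
  pC : ∀ k, k + 1 < n → ∀ K : Finset ℕ, ∀ y ∈ PGz n A XA XB Z K,
    C k * y * (C k)⁻¹ ∈ PGz n A XA XB Z K ∧ (C k)⁻¹ * y * C k ∈ PGz n A XA XB Z K
  pI : ∀ k, k < n → ∀ K : Finset ℕ, ∀ y ∈ PGz n A XA XB Z K,
    (A k * B k) ^ 3 * y * ((A k * B k) ^ 3)⁻¹ ∈ PGz n A XA XB Z K ∧
      ((A k * B k) ^ 3)⁻¹ * y * (A k * B k) ^ 3 ∈ PGz n A XA XB Z K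
  pB : ∀ k, k < n → ∀ K : Finset ℕ, k ∉ K → ∀ y ∈ PGz n A XA XB Z K,
    B k * y * (B k)⁻¹ ∈ PGz n A XA XB Z K ∧ (B k)⁻¹ * y * B k ∈ PGz n A XA XB Z K
  pS : ∀ k, k + 1 < n → ∀ K : Finset ℕ, ∀ y ∈ PGz n A XA XB Z K,
    S k * y * (S k)⁻¹ ∈ PGz n A XA XB Z (K.map (Equiv.swap k (k + 1)).toEmbedding)
  pSi : ∀ k, k + 1 < n → ∀ K : Finset ℕ,
    ∀ y ∈ PGz n A XA XB Z (K.map (Equiv.swap k (k + 1)).toEmbedding),
    (S k)⁻¹ * y * S k ∈ PGz n A XA XB Z K
  last : ∀ k, k + 1 = n → ∃ j : ℤ, ∃ z ∈ Z, XQ XA XB k = A k * (C k)⁻¹ * A n ^ j * z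
  ioQ : ∀ l, l < n → ∃ j : ℤ, ∃ z ∈ Z,
    (A l * B l) ^ 3 * XQ XA XB l * ((A l * B l) ^ 3)⁻¹ = XA l * A n ^ j * z
  BXA : ∀ l, l < n → ∃ j : ℤ, ∃ z ∈ Z, B l * XA l * (B l)⁻¹ = XA l * XB l * A n ^ j * z
  BAQ : ∀ l, l < n → ∃ j : ℤ, ∃ z ∈ Z,
    (B l * A l) * XQ XA XB l * (B l * A l)⁻¹ = (XA l)⁻¹ * (XB l)⁻¹ * A n ^ j * z
  SXB : ∀ k, k + 1 < n → ∃ j : ℤ, ∃ z ∈ Z, S k * XB (k + 1) * (S k)⁻¹ = XB k * A n ^ j * z
  SXQ : ∀ k, k + 1 < n → ∃ j : ℤ, ∃ z ∈ Z,
    S k * XQ XA XB (k + 1) * (S k)⁻¹ = XQ XA XB k * A n ^ j * z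

section

variable {Γ' : Type*} [Group Γ'] (π : Γ →* Γ')

theorem exists_ker {x w : Γ} (h : π x = π w) : ∃ z ∈ π.ker, x = w * z := by
  refine ⟨w⁻¹ * x, ?_, by group⟩
  rw [MonoidHom.mem_ker, map_mul, map_inv, h, inv_mul_cancel]

theorem map_XQ (XA XB : ℕ → Γ) (l : ℕ) :
    π (XQ XA XB l) = XQ (fun k => π (XA k)) (fun k => π (XB k)) l := by
  simp only [XQ, map_mul, map_inv]

/-- The pushes are the elements whose images are pushes. -/
theorem mem_PGz {n : ℕ} {A XA XB : ℕ → Γ} {K : Finset ℕ} {y : Γ} :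
    y ∈ PGz n A XA XB π.ker K ↔
      π y ∈ PG n (fun k => π (A k)) (fun k => π (XA k)) (fun k => π (XB k)) K := by
  constructor
  · intro h
    have hle : PGz n A XA XB π.ker K ≤
        (PG n (fun k => π (A k)) (fun k => π (XA k)) (fun k => π (XB k)) K).comap π := by
      rw [PGz, Subgroup.closure_le]
      rintro x (rfl | (⟨l, hl, rfl | rfl⟩ | hx) | ⟨l, hl, h2, rfl⟩)
      · exact Subgroup.subset_closure (Or.inl rfl)
      · exact Subgroup.subset_closure (Or.inr (Or.inl ⟨l, hl, Or.inl rfl⟩))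
      · rw [SetLike.mem_coe, Subgroup.mem_comap, map_XQ]
        exact Subgroup.subset_closure (Or.inr (Or.inl ⟨l, hl, Or.inr rfl⟩))
      · rw [SetLike.mem_coe, Subgroup.mem_comap, MonoidHom.mem_ker.1 hx]
        exact one_mem _
      · exact Subgroup.subset_closure (Or.inr (Or.inr ⟨l, hl, h2, rfl⟩))
    exact hle h
  · intro h
    have hle : PG n (fun k => π (A k)) (fun k => π (XA k)) (fun k => π (XB k)) K ≤
        (PGz n A XA XB π.ker K).map π := by
      rw [PG, Subgroup.closure_le]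
      rintro x (rfl | ⟨l, hl, rfl | rfl⟩ | ⟨l, hl, h2, rfl⟩)
      · exact ⟨A n, Subgroup.subset_closure (Or.inl rfl), rfl⟩
      · exact ⟨XA l, Subgroup.subset_closure (Or.inr (Or.inl (Or.inl ⟨l, hl, Or.inl rfl⟩))), rfl⟩
      · exact ⟨XQ XA XB l,
          Subgroup.subset_closure (Or.inr (Or.inl (Or.inl ⟨l, hl, Or.inr rfl⟩))), map_XQ π XA XB l⟩
      · exact ⟨XB l, Subgroup.subset_closure (Or.inr (Or.inr ⟨l, hl, h2, rfl⟩)), rfl⟩
    obtain ⟨w, hw, h1⟩ := hle h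
    obtain ⟨z, hz, rfl⟩ := exists_ker π h1.symm
    exact mul_mem hw (Subgroup.subset_closure (Or.inr (Or.inl (Or.inr hz))))

/-- The relations up to the kernel follow from those of the images, for arbitrary lifts. -/
theorem PuZ.of_map {n : ℕ} {A B C S XA XB : ℕ → Γ}
    (P : Pu n (fun k => π (A k)) (fun k => π (B k)) (fun k => π (C k)) (fun k => π (S k))
      (fun k => π (XA k)) fun k => π (XB k)) : PuZ n A B C S XA XB π.ker where
  pA := fun k hk K y hy => by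
    have h := P.pA k hk K _ ((mem_PGz π).1 hy)
    rw [mem_PGz, mem_PGz]
    simpa only [map_mul, map_inv] using h
  pC := fun k hk K y hy => by
    have h := P.pC k hk K _ ((mem_PGz π).1 hy)
    rw [mem_PGz, mem_PGz]
    simpa only [map_mul, map_inv] using h
  pI := fun k hk K y hy => by
    have h := P.pI k hk K _ ((mem_PGz π).1 hy)
    rw [mem_PGz, mem_PGz]
    simpa only [map_mul, map_inv, map_pow] using h
  pB := fun k hk K hkK y hy => by
    have h := P.pB k hk K hkK _ ((mem_PGz π).1 hy)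
    rw [mem_PGz, mem_PGz]
    simpa only [map_mul, map_inv] using h
  pS := fun k hk K y hy => by
    have h := P.pS k hk K _ ((mem_PGz π).1 hy)
    rw [mem_PGz]
    simpa only [map_mul, map_inv] using h
  pSi := fun k hk K y hy => by
    have h := P.pSi k hk K _ ((mem_PGz π).1 hy)
    rw [mem_PGz]
    simpa only [map_mul, map_inv] using h
  last := fun k hk => by
    obtain ⟨j, hj⟩ := P.last k hk
    refine ⟨j, exists_ker π ?_⟩
    rw [map_XQ, hj]
    simp only [map_mul, map_inv, map_zpow]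
  ioQ := fun l hl => by
    obtain ⟨j, hj⟩ := P.ioQ l hl
    refine ⟨j, exists_ker π ?_⟩
    simp only [map_mul, map_inv, map_zpow, map_pow, map_XQ]
    exact hj
  BXA := fun l hl => by
    obtain ⟨j, hj⟩ := P.BXA l hl
    refine ⟨j, exists_ker π ?_⟩
    simp only [map_mul, map_inv, map_zpow]
    exact hj
  BAQ := fun l hl => by
    obtain ⟨j, hj⟩ := P.BAQ l hl
    refine ⟨j, exists_ker π ?_⟩
    simp only [map_mul, map_inv, map_zpow, map_XQ]
    simpa only [mul_inv_rev] using hj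
  SXB := fun k hk => by
    obtain ⟨j, hj⟩ := P.SXB k hk
    refine ⟨j, exists_ker π ?_⟩
    simp only [map_mul, map_inv, map_zpow]
    exact hj
  SXQ := fun k hk => by
    obtain ⟨j, hj⟩ := P.SXQ k hk
    refine ⟨j, exists_ker π ?_⟩
    simp only [map_mul, map_inv, map_zpow, map_XQ]
    exact hj

end

namespace PuZ

variable {n : ℕ} {A B C S XA XB : ℕ → Γ} {Z : Subgroup Γ} (P : PuZ n A B C S XA XB Z)
include P

/-- The front arcs normalise the groups of pushes. -/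
theorem fa_nm (l : ℕ) : ∀ d, l + d + 1 < n → ∀ K : Finset ℕ, fa C S l d ∈ nm (PGz n A XA XB Z K)
  | 0, h, K => P.pC l (by omega) K
  | d + 1, h, K => by
    have ih := fa_nm l d (by omega) (K.map (Equiv.swap (l + d + 1) (l + d + 1 + 1)).toEmbedding)
    intro y hy
    have h1 := P.pS (l + d + 1) (by omega) K y hy
    have h2 := ih _ h1
    have h3 := P.pSi (l + d + 1) (by omega) K _ h2.1
    have h4 := P.pSi (l + d + 1) (by omega) K _ h2.2
    change (S (l + d + 1))⁻¹ * fa C S l d * S (l + d + 1) * y *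
      ((S (l + d + 1))⁻¹ * fa C S l d * S (l + d + 1))⁻¹ ∈ _ ∧
      ((S (l + d + 1))⁻¹ * fa C S l d * S (l + d + 1))⁻¹ * y *
      ((S (l + d + 1))⁻¹ * fa C S l d * S (l + d + 1)) ∈ _
    constructor
    · convert h3 using 1
      group
    · convert h4 using 1
      group

theorem DD_nm (K : Finset ℕ) : DD A B C S n ≤ nm (PGz n A XA XB Z K) := by
  rw [DD, Subgroup.closure_le]
  rintro x (⟨k, h1, rfl | rfl⟩ | ⟨l, d, h1, rfl⟩)
  · exact P.pA k h1 K
  · exact P.pI k h1 K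
  · exact P.fa_nm l d h1 K

/-- The permutations of the first handles permute the groups of pushes. -/
theorem Bb_PG : ∀ p ∈ Bb A B S n, ∀ K : Finset ℕ,
    ∀ y ∈ PGz n A XA XB Z (K.map p.2.toEmbedding), p.1⁻¹ * y * p.1 ∈ PGz n A XA XB Z K := by
  let Q : Subgroup (Γ × Equiv.Perm ℕ) :=
    { carrier := {p | ∀ K : Finset ℕ,
        (∀ y ∈ PGz n A XA XB Z (K.map p.2.toEmbedding), p.1⁻¹ * y * p.1 ∈ PGz n A XA XB Z K) ∧
        (∀ y ∈ PGz n A XA XB Z K, p.1 * y * p.1⁻¹ ∈ PGz n A XA XB Z (K.map p.2.toEmbedding))}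
      one_mem' := fun K => by
        have e : K.map (1 : Equiv.Perm ℕ).toEmbedding = K := map_one_perm K
        constructor
        · intro y hy
          change (1 : Γ)⁻¹ * y * 1 ∈ _
          rw [inv_one, one_mul, mul_one]
          change y ∈ PGz n A XA XB Z (K.map (1 : Equiv.Perm ℕ).toEmbedding) at hy
          rwa [e] at hy
        · intro y hy
          change (1 : Γ) * y * 1⁻¹ ∈ PGz n A XA XB Z (K.map (1 : Equiv.Perm ℕ).toEmbedding)
          rw [e, inv_one, one_mul, mul_one]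
          exact hy
      mul_mem' := by
        intro p r hp hr K
        have e : K.map (p.2 * r.2).toEmbedding =
            (K.map r.2.toEmbedding).map p.2.toEmbedding := by
          rw [Finset.map_map]
          rfl
        constructor
        · intro y hy
          change y ∈ PGz n A XA XB Z (K.map (p.2 * r.2).toEmbedding) at hy
          rw [e] at hy
          have h1 := (hr K).1 _ ((hp (K.map r.2.toEmbedding)).1 y hy)
          change (p.1 * r.1)⁻¹ * y * (p.1 * r.1) ∈ _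
          convert h1 using 1
          group
        · intro y hy
          have h1 := (hp (K.map r.2.toEmbedding)).2 _ ((hr K).2 y hy)
          change (p.1 * r.1) * y * (p.1 * r.1)⁻¹ ∈
            PGz n A XA XB Z (K.map (p.2 * r.2).toEmbedding)
          rw [e]
          convert h1 using 1
          group
      inv_mem' := by
        intro p hp K
        have e : (K.map (p.2⁻¹).toEmbedding).map p.2.toEmbedding = K := map_inv_perm p.2 K
        constructor
        · intro y hy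
          change y ∈ PGz n A XA XB Z (K.map (p.2⁻¹).toEmbedding) at hy
          have h1 := (hp (K.map (p.2⁻¹).toEmbedding)).2 y hy
          rw [e] at h1
          change (p.1⁻¹)⁻¹ * y * p.1⁻¹ ∈ _
          rwa [inv_inv]
        · intro y hy
          rw [← e] at hy
          have h1 := (hp (K.map (p.2⁻¹).toEmbedding)).1 y hy
          change p.1⁻¹ * y * (p.1⁻¹)⁻¹ ∈ PGz n A XA XB Z (K.map (p.2⁻¹).toEmbedding)
          rwa [inv_inv] }
  have h1 : Bb A B S n ≤ Q := by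
    refine Bb_le (fun i hi K => ⟨P.pSi i hi K, P.pS i hi K⟩) fun k hk K => ?_
    have e : K.map (1 : Equiv.Perm ℕ).toEmbedding = K := map_one_perm K
    constructor
    · intro y hy
      change y ∈ PGz n A XA XB Z (K.map (1 : Equiv.Perm ℕ).toEmbedding) at hy
      rw [e] at hy
      exact (P.pI k hk K y hy).2
    · intro y hy
      change _ ∈ PGz n A XA XB Z (K.map (1 : Equiv.Perm ℕ).toEmbedding)
      rw [e]
      exact (P.pI k hk K y hy).1
  exact fun p hp K => (h1 hp K).1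

variable (L : Lk (n + 1) A B C S) (H : HbZ (n + 1) A B C S Z)
  (hZ : ∀ z ∈ Z, ∀ x : Γ, Commute z x)
include L H hZ

/-- The push around `q l` is a product of two twists, modulo the powers of `A n` and `Z`. -/
theorem XQ_eq : ∀ d l, l + d + 1 = n →
    ∃ j : ℤ, ∃ z ∈ Z, XQ XA XB l = A l * (fa C S l d)⁻¹ * A n ^ j * z := by
  intro d
  induction d with
  | zero =>
    intro l hl
    exact P.last l (by omega)
  | succ d ih =>
    intro l hl
    obtain ⟨j, z, hz, hj⟩ := ih (l + 1) (by omega)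
    obtain ⟨j', z', hz', hj'⟩ := P.SXQ l (by omega)
    have h1 := S_fr_l L H l d (by omega)
    have h2 := L.SA' l (by omega)
    have h3 : Commute (S l) (A n ^ j) := (L.SAo l n (by omega) (by omega)).zpow_right j
    refine ⟨j - j', z * z'⁻¹, mul_mem hz (inv_mem hz'), ?_⟩
    have h4 : XQ XA XB l = S l * XQ XA XB (l + 1) * (S l)⁻¹ * (A n ^ j' * z')⁻¹ := by
      rw [hj']; group
    rw [h4, hj, ← h1, zpow_sub]
    have h5 : A l = S l * A (l + 1) * (S l)⁻¹ := by rw [h2]; group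
    have c1 : z * (S l)⁻¹ = (S l)⁻¹ * z := (hZ z hz (S l)⁻¹).eq
    have c2 : z'⁻¹ * (A n ^ j')⁻¹ = (A n ^ j')⁻¹ * z'⁻¹ := (hZ z'⁻¹ (inv_mem hz') _).eq
    have c3 : z * (A n ^ j')⁻¹ = (A n ^ j')⁻¹ * z := (hZ z hz _).eq
    rw [h5]
    calc S l * (A (l + 1) * (fa C S (l + 1) d)⁻¹ * A n ^ j * z) * (S l)⁻¹ * (A n ^ j' * z')⁻¹ =
        S l * A (l + 1) * (fa C S (l + 1) d)⁻¹ * A n ^ j * (z * (S l)⁻¹) *
          (z'⁻¹ * (A n ^ j')⁻¹) := by group
      _ = S l * A (l + 1) * (fa C S (l + 1) d)⁻¹ * (A n ^ j * (S l)⁻¹) *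
          (z * (A n ^ j')⁻¹) * z'⁻¹ := by rw [c1, c2]; group
      _ = S l * A (l + 1) * (fa C S (l + 1) d)⁻¹ * ((S l)⁻¹ * A n ^ j) *
          ((A n ^ j')⁻¹ * z) * z'⁻¹ := by
        rw [h3.inv_left.eq, c3]
      _ = _ := by group

theorem XQ_mem {l : ℕ} (hl : l < n) : XQ XA XB l ∈ DD A B C S (n + 1) ⊔ Z := by
  obtain ⟨j, z, hz, hj⟩ := P.XQ_eq L H hZ (n - 1 - l) l (by omega)
  rw [hj]
  exact mul_mem ((le_sup_left : DD A B C S (n + 1) ≤ DD A B C S (n + 1) ⊔ Z)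
    (mul_mem (mul_mem (A_mem_DD (by omega)) (inv_mem (fr_mem_DD (by omega))))
    (zpow_mem (A_mem_DD (by omega)) j))) ((le_sup_right : Z ≤ DD A B C S (n + 1) ⊔ Z) hz)

theorem XA_mem {l : ℕ} (hl : l < n) : XA l ∈ DD A B C S (n + 1) ⊔ Z := by
  obtain ⟨j, z, hz, hj⟩ := P.ioQ l hl
  have h1 : XA l = (A l * B l) ^ 3 * XQ XA XB l * ((A l * B l) ^ 3)⁻¹ * (A n ^ j * z)⁻¹ := by
    rw [hj]; group
  have hle : DD A B C S (n + 1) ≤ DD A B C S (n + 1) ⊔ Z := le_sup_left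
  have hI : (A l * B l) ^ 3 ∈ DD A B C S (n + 1) ⊔ Z := hle (io_mem_DD (by omega))
  rw [h1]
  exact mul_mem (mul_mem (mul_mem hI (P.XQ_mem L H hZ hl)) (inv_mem hI))
    (inv_mem (mul_mem (hle (zpow_mem (A_mem_DD (by omega)) j))
      ((le_sup_right : Z ≤ DD A B C S (n + 1) ⊔ Z) hz)))

theorem XZ_sub : XZ n XA XB Z ⊆ (DD A B C S (n + 1) ⊔ Z : Subgroup Γ) := by
  rintro x (⟨l, hl, rfl | rfl⟩ | hx)
  · exact P.XA_mem L H hZ hl
  · exact P.XQ_mem L H hZ hl
  · exact (le_sup_right : Z ≤ DD A B C S (n + 1) ⊔ Z) hx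

omit L H hZ in
theorem XB_eq {l : ℕ} (hl : l < n) :
    ∃ j : ℤ, ∃ z ∈ Z, XB l = (XA l)⁻¹ * B l * XA l * (B l)⁻¹ * z * A n ^ j := by
  obtain ⟨j, z, hz, hj⟩ := P.BXA l hl
  refine ⟨-j, z⁻¹, inv_mem hz, ?_⟩
  calc XB l = (XA l)⁻¹ * (XA l * XB l * A n ^ j * z) * z⁻¹ * A n ^ (-j) := by group
    _ = _ := by rw [← hj]; group

/-- Generators of `DD (n + 1)` and `Z`. -/
theorem DD_le : DD A B C S (n + 1) ⊔ Z ≤ Subgroup.closure ((DD A B C S n : Set Γ) ∪
    (insert (A n) (insert ((A n * B n) ^ 3) (XZ n XA XB Z)))) := by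
  have hZ' : Z ≤ Subgroup.closure ((DD A B C S n : Set Γ) ∪
      (insert (A n) (insert ((A n * B n) ^ 3) (XZ n XA XB Z)))) := fun z hz =>
    Subgroup.subset_closure (Or.inr (Or.inr (Or.inr (Or.inr hz))))
  apply sup_le _ hZ'
  rw [DD, Subgroup.closure_le]
  have hA : A n ∈ Subgroup.closure ((DD A B C S n : Set Γ) ∪
      (insert (A n) (insert ((A n * B n) ^ 3) (XZ n XA XB Z)))) :=
    Subgroup.subset_closure (Or.inr (Or.inl rfl))
  have hD : ∀ x ∈ DD A B C S n, x ∈ Subgroup.closure ((DD A B C S n : Set Γ) ∪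
      (insert (A n) (insert ((A n * B n) ^ 3) (XZ n XA XB Z)))) := fun x hx =>
    Subgroup.subset_closure (Or.inl hx)
  rintro x (⟨k, h1, h2⟩ | ⟨l, d, h1, rfl⟩)
  · by_cases hk : k < n
    · rcases h2 with rfl | rfl
      · exact hD _ (A_mem_DD hk)
      · exact hD _ (io_mem_DD hk)
    · obtain rfl : k = n := by omega
      rcases h2 with rfl | rfl
      · exact hA
      · exact Subgroup.subset_closure (Or.inr (Or.inr (Or.inl rfl)))
  · by_cases hl : l + d + 1 < n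
    · exact hD _ (fr_mem_DD hl)
    · obtain ⟨j, z, hz, hj⟩ := P.XQ_eq L H hZ d l (by omega)
      have h2 : fa C S l d = (A n ^ j) * z * (XQ XA XB l)⁻¹ * A l := by
        rw [hj]; group
      rw [h2]
      refine mul_mem (mul_mem (mul_mem (zpow_mem hA j) (hZ' hz)) (inv_mem
        (Subgroup.subset_closure (Or.inr (Or.inr (Or.inr (Or.inl ⟨l, by omega, Or.inr rfl⟩)))))))
        (hD _ (A_mem_DD (by omega)))

end PuZ

end Pool.MP_59b15d_al.H60P
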